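import Mathlib

set_option autoImplicit false
set_option maxRecDepth 100000

namespace Pool.Agent.Results.MP_ad1e8a_co.Counter

open Matrix

/-- Coloured permutations (χ, ψ); positions and letters are numbered from 0. -/
abbrev CP (m n : ℕ) := (Fin n → ZMod m) × Equiv.Perm (Fin n)

/-- τ is obtained from σ by the reversal of the first k positions with colour shift ε. -/
def Rev {m n : ℕ} (k : ℕ) (ε : ZMod m) (σ τ : CP m n) : Prop :=
  ∀ t : Fin n, (t.val < k → ∃ s : Fin n, s.val + t.val + 1 = k ∧ τ.2 t = σ.2 s ∧ τ.1 t = σ.1 s + ε) ∧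
    (k ≤ t.val → τ.2 t = σ.2 t ∧ τ.1 t = σ.1 t)

/-- The generalised pancake graph. -/
def pancake (m n : ℕ) : SimpleGraph (CP m n) :=
  SimpleGraph.fromRel fun σ τ => ∃ k ∈ Finset.Icc 1 n, Rev k 1 σ τ ∨ Rev k (-1) σ τ

/-- The part V_{i,j}: the first letter stands at position j with colour i. -/
def InPart {m n : ℕ} (a : ZMod m × Fin n) (σ : CP m n) : Prop := (σ.2 a.2).val = 0 ∧ σ.1 a.2 = a.1

/-- Q is the quotient matrix of the partition into the parts V_{i,j}. -/
def IsQuot (m n : ℕ) (Q : Matrix (ZMod m × Fin n) (ZMod m × Fin n) ℝ) : Prop :=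
  ∀ a b u, InPart a u → Q a b = ({v | InPart b v ∧ (pancake m n).Adj u v}.ncard : ℝ)

open Classical in
/-- The real adjacency matrix. -/
noncomputable def adjM {V : Type} (G : SimpleGraph V) : Matrix V V ℝ :=
  fun u v => if G.Adj u v then 1 else 0

/-- The difference of the two largest eigenvalues, listed with multiplicity. -/
noncomputable def gap {V : Type} [Fintype V] [DecidableEq V] (A : Matrix V V ℝ) : ℝ :=
  (A.charpoly.roots.sort (· ≥ ·)).getD 0 0 - (A.charpoly.roots.sort (· ≥ ·)).getD 1 0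

open Classical in
noncomputable instance : DecidableRel (pancake 6 2).Adj := fun _ _ => inferInstance

instance (a : ZMod 6 × Fin 2) (σ : CP 6 2) : Decidable (InPart a σ) := by
  unfold InPart; infer_instance

abbrev T := ZMod 6 × ZMod 6 × Bool

def dec (x : T) : CP 6 2 := (![x.1, x.2.1], if x.2.2 then Equiv.swap 0 1 else 1)

theorem dec_bij : Function.Bijective dec := by
  constructor
  · rintro ⟨a, b, c⟩ ⟨d, e, f⟩ h
    have h1 : a = d := congrFun (congrArg Prod.fst h) 0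
    have h2 : b = e := congrFun (congrArg Prod.fst h) 1
    have h3 := congrArg (fun u : CP 6 2 => u.2 0) h
    subst h1 h2
    cases c <;> cases f <;> simp [dec] at h3 ⊢
  · rintro ⟨f, p⟩
    have hp : ∀ p : Equiv.Perm (Fin 2), p = 1 ∨ p = Equiv.swap 0 1 := by decide
    have hf : ![f 0, f 1] = f := by ext i; fin_cases i <;> rfl
    rcases hp p with rfl | rfl
    · exact ⟨(f 0, f 1, false), by simp [dec, hf]⟩
    · exact ⟨(f 0, f 1, true), by simp [dec, hf]⟩

def adjB (x y : T) : Bool :=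
  if x.2.2 = y.2.2 then (y.2.1 == x.2.1 && (y.1 == x.1 + 1 || y.1 == x.1 - 1))
  else ((y.1 == x.2.1 + 1 && y.2.1 == x.1 + 1) || (y.1 == x.2.1 - 1 && y.2.1 == x.1 - 1))

theorem adj_iff (x y : T) : (pancake 6 2).Adj (dec x) (dec y) ↔ adjB x y = true := by
  have hI : Finset.Icc 1 2 = {1, 2} := rfl
  rw [pancake, SimpleGraph.fromRel_adj, dec_bij.1.ne_iff]
  obtain ⟨a, b, c⟩ := x
  obtain ⟨d, e, f⟩ := y
  cases c <;> cases f <;>
    simp [hI, Rev, dec, Fin.forall_fin_two, Fin.exists_fin_two] <;>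
    revert a b d e <;> decide +kernel

def ev (σ : CP 6 2) : ℤ :=
  ([2, 1, -1, -2, -1, 1] : List ℤ).getD (σ.1 (σ.2 0) - σ.1 (σ.2 1)).val 0

theorem deg4' : ∀ x : T, ∑ y, (if adjB x y = true then (1 : ℤ) else 0) = 4 := by decide +kernel

theorem ev3' : ∀ x : T, ∑ y, (if adjB x y = true then ev (dec y) else 0) = 3 * ev (dec x) := by
  decide +kernel

theorem deg4 (u : CP 6 2) : ∑ v, (if (pancake 6 2).Adj u v then (1 : ℤ) else 0) = 4 := by
  obtain ⟨x, rfl⟩ := dec_bij.2 u
  rw [← dec_bij.sum_comp, ← deg4' x]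
  simp only [adj_iff]

theorem ev3 (u : CP 6 2) : ∑ v, (if (pancake 6 2).Adj u v then ev v else 0) = 3 * ev u := by
  obtain ⟨x, rfl⟩ := dec_bij.2 u
  rw [← dec_bij.sum_comp, ← ev3' x]
  simp only [adj_iff]

def ofTab (l : List ℤ) : Matrix (ZMod 6 × Fin 2) (ZMod 6 × Fin 2) ℤ :=
  fun a b => l.getD (4 * (a.1 - b.1).val + 2 * a.2.val + b.2.val) 0

def QZ := ofTab [0, 0, 0, 2, 1, 1, 1, 0, 0, 0, 0, 0, 0, 0, 0, 0, 0, 0, 0, 0, 1, 1, 1, 0]

def W (k : ℕ) := ofTab (([[1, 0, 0, 1, 0, 0, 0, 0, 0, 0, 0, 0, 0, 0, 0, 0, 0, 0, 0, 0, 0, 0, 0, 0],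
    [-4, 0, 0, -2, 1, 1, 1, 0, 0, 0, 0, 0, 0, 0, 0, 0, 0, 0, 0, 0, 1, 1, 1, 0],
    [-3, 2, 2, -9, -4, -2, -2, 0, 2, 1, 1, 1, 0, 0, 0, 0, 2, 1, 1, 1, -4, -2, -2, 0],
    [28, -4, -4, 18, 2, -5, -5, 3, -6, -2, -2, 0, 6, 4, 4, 2, -6, -2, -2, 0, 2, -5, -5, 3],
    [-17, -4, -4, 15, 16, 12, 12, 0, 7, 4, 4, -1, -16, -4, -4, 0, 7, 4, 4, -1, 16, 12, 12, 0],
    [-8, 24, 24, -10, -10, 14, 14, 0, 8, 8, 8, 6, 22, 6, 6, 8, 8, 8, 8, 6, -10, 14, 14, 0],
    [32, 28, 28, 32, 32, 28, 28, 32, 32, 28, 28, 32, 32, 28, 28, 32, 32, 28, 28, 32, 32, 28, 28, 32],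
    [120, 120, 120, 120, 120, 120, 120, 120, 120, 120, 120, 120, 120, 120, 120, 120, 120, 120, 120, 120, 120, 120, 120, 120]] : List (List ℤ)).getD k [])

def cf (k : ℕ) : ℤ := ([-4, -7, 40, -11, -64, 24, 0] : List ℤ).getD k 0

theorem hW : ∀ k < 7, ∀ a b, W (k + 1) a b = ∑ c, W k a c * QZ c b + if a = b then cf k else 0 := by
  decide +kernel

theorem hW0 : ∀ a b, W 0 a b = if a = b then 1 else 0 := by decide +kernel
theorem hW7 : ∀ a b, W 7 a b = 120 := by decide +kernel
theorem hQs : ∀ a b, QZ a b = QZ b a := by decide +kernel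
theorem hQ4 : ∀ a, ∑ b, QZ a b = 4 := by decide +kernel

theorem hQ' : ∀ (x : T) a, InPart a (dec x) → ∀ b, QZ a b =
    ∑ y, if adjB x y = true ∧ InPart b (dec y) then 1 else 0 := by
  decide +kernel

theorem hQ (u : CP 6 2) (a : ZMod 6 × Fin 2) (h : InPart a u) (b : ZMod 6 × Fin 2) : QZ a b =
    ((Finset.univ.filter fun v => InPart b v ∧ (pancake 6 2).Adj u v).card : ℤ) := by
  obtain ⟨x, rfl⟩ := dec_bij.2 u
  rw [hQ' x a h b, Finset.card_filter, Nat.cast_sum, ← dec_bij.sum_comp]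
  simp only [adj_iff, and_comm, Nat.cast_ite, Nat.cast_one, Nat.cast_zero]

noncomputable def QR : Matrix (ZMod 6 × Fin 2) (ZMod 6 × Fin 2) ℝ := fun a b => (QZ a b : ℝ)

theorem root_iff {V : Type} [Fintype V] [DecidableEq V] (A : Matrix V V ℝ) (x : ℝ) :
    x ∈ A.charpoly.roots ↔ ∃ v ≠ 0, A *ᵥ v = x • v := by
  rw [Polynomial.mem_roots A.charpoly_monic.ne_zero, Polynomial.IsRoot, Matrix.eval_charpoly,
    ← Matrix.exists_mulVec_eq_zero_iff]
  refine exists_congr fun v => and_congr_right fun _ => ?_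
  rw [Matrix.sub_mulVec, sub_eq_zero, eq_comm]
  simp

theorem gapA : gap (adjM (pancake 6 2)) ≤ 1 := by
  have hA : ∀ u v, adjM (pancake 6 2) u v = if (pancake 6 2).Adj u v then 1 else 0 := by
    intro u v
    unfold adjM
    congr
  have hd : ∀ u, ∑ v, adjM (pancake 6 2) u v = 4 := by
    intro u
    have := congrArg (Int.cast : ℤ → ℝ) (deg4 u)
    simpa [hA] using this
  have h4 : (4 : ℝ) ∈ (adjM (pancake 6 2)).charpoly.roots := by
    refine (root_iff _ _).2 ⟨fun _ => 1, fun h => one_ne_zero (congrFun h (0, 1)), ?_⟩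
    ext u
    simp [Matrix.mulVec, dotProduct, hd]
  have h3 : (3 : ℝ) ∈ (adjM (pancake 6 2)).charpoly.roots := by
    refine (root_iff _ _).2 ⟨fun u => (ev u : ℝ), fun h => ?_, ?_⟩
    · have h1 := congrFun h (0, 1)
      have h2 : ev (0, 1) = 2 := by decide +kernel
      simp [h2] at h1
    · ext u
      have := congrArg (Int.cast : ℤ → ℝ) (ev3 u)
      simpa [Matrix.mulVec, dotProduct, hA] using this
  have hle : ∀ x ∈ (adjM (pancake 6 2)).charpoly.roots, x ≤ 4 := by
    intro x hx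
    obtain ⟨v, hv, h⟩ := (root_iff _ _).1 hx
    obtain ⟨u, hu⟩ := Finite.exists_max fun u => |v u|
    have hpos : 0 < |v u| := by
      obtain ⟨w, hw⟩ := Function.ne_iff.1 hv
      exact (abs_pos.2 hw).trans_le (hu w)
    have h1 : |x| * |v u| ≤ 4 * |v u| := by
      have h2 := congrFun h u
      simp only [Matrix.mulVec, dotProduct, Pi.smul_apply, smul_eq_mul] at h2
      rw [← abs_mul, ← h2, ← hd u, Finset.sum_mul]
      refine (Finset.abs_sum_le_sum_abs _ _).trans (Finset.sum_le_sum fun w _ => ?_)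
      rw [hA]
      split_ifs
      · simpa using hu w
      · simp
    exact (le_abs_self x).trans (le_of_mul_le_mul_right h1 hpos)
  unfold gap
  have hs := Multiset.pairwise_sort (adjM (pancake 6 2)).charpoly.roots (· ≥ ·)
  simp only [← Multiset.mem_sort (r := (· ≥ ·))] at h4 h3 hle
  generalize (adjM (pancake 6 2)).charpoly.roots.sort (· ≥ ·) = l at *
  rcases l with _ | ⟨x, _ | ⟨y, t⟩⟩
  · simp at h4
  · simp at h3 h4
    linarith
  · have hx := hle x (by simp)
    simp only [List.pairwise_cons, List.mem_cons] at hs h3 h4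
    have hy : 3 ≤ y := by
      rcases h3 with h3 | h3 | h3
      · rcases h4 with h4 | h4 | h4
        · linarith
        · linarith
        · linarith [hs.2.1 _ h4]
      · exact h3.le
      · exact hs.2.1 _ h3
    simp
    linarith

theorem const_of (v : ZMod 6 × Fin 2 → ℝ) (x : ℝ) (hx : 3 ≤ x) (h : QR *ᵥ v = x • v) (a b) :
    v a = v b := by
  have step : ∀ k < 7, ∀ w : ℝ, (∀ a, ∑ c, (W k a c : ℝ) * v c = w * v a) →
      ∀ a, ∑ c, (W (k + 1) a c : ℝ) * v c = (w * x + cf k) * v a := by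
    intro k hk w hw a
    have h1 : ∀ c, ∑ b, (QZ c b : ℝ) * v b = x * v c := fun c => congrFun h c
    simp only [hW k hk, Int.cast_add, Int.cast_sum, Int.cast_mul, add_mul, Finset.sum_add_distrib,
      Finset.sum_mul, Int.cast_ite, Int.cast_zero, ite_mul, zero_mul, Finset.sum_ite_eq,
      Finset.mem_univ, if_true]
    rw [Finset.sum_comm]
    simp only [mul_assoc, ← Finset.mul_sum, h1]
    simp only [mul_left_comm _ x, ← Finset.mul_sum, hw]
  have s0 : ∀ a, ∑ c, (W 0 a c : ℝ) * v c = 1 * v a := by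
    intro a
    simp [hW0]
  have s7 := step 6 (by norm_num) _ (step 5 (by norm_num) _ (step 4 (by norm_num) _
    (step 3 (by norm_num) _ (step 2 (by norm_num) _ (step 1 (by norm_num) _
      (step 0 (by norm_num) _ s0))))))
  have ha := s7 a
  have hb := s7 b
  simp only [show 6 + 1 = 7 from rfl, hW7] at ha hb
  have hq : (0 : ℝ) < x * (x ^ 2 - 3 * x + 1) * (x ^ 2 - x - 3) * (x ^ 2 - 8) := by
    have : 0 < x ^ 2 - 3 * x + 1 := by nlinarith
    have : 0 < x ^ 2 - x - 3 := by nlinarith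
    have : 0 < x ^ 2 - 8 := by nlinarith
    positivity
  apply mul_left_cancel₀ hq.ne'
  simp [cf] at ha hb
  linear_combination hb - ha

theorem gapQ : 1 < gap QR := by
  have hH : QR.IsHermitian := by
    ext a b
    simp [QR, hQs a b]
  have h4 : (4 : ℝ) ∈ QR.charpoly.roots := by
    refine (root_iff _ _).2 ⟨fun _ => 1, fun h => one_ne_zero (congrFun h (0, 1)), ?_⟩
    ext u
    have := congrArg (Int.cast : ℤ → ℝ) (hQ4 u)
    simpa [Matrix.mulVec, dotProduct, QR] using this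
  have hc : QR.charpoly.roots.countP (3 ≤ ·) ≤ 1 := by
    rw [hH.roots_charpoly_eq_eigenvalues, Multiset.countP_map]
    change (Finset.univ.filter fun i => 3 ≤ hH.eigenvalues i).card ≤ 1
    rw [Finset.card_le_one]
    intro i hi j hj
    by_contra hij
    have hi' := const_of _ _ (Finset.mem_filter.1 hi).2 (hH.mulVec_eigenvectorBasis i)
    have hj' := const_of _ _ (Finset.mem_filter.1 hj).2 (hH.mulVec_eigenvectorBasis j)
    have ho := hH.eigenvectorBasis.orthonormal
    have h1 := ho.2 hij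
    have nz : ∀ i, (∀ a b, (hH.eigenvectorBasis i) a = (hH.eigenvectorBasis i) b) →
        (hH.eigenvectorBasis i) 0 ≠ 0 := by
      intro i hi h0
      apply ho.ne_zero i
      ext a
      rw [hi a 0, h0]
      rfl
    simp only [PiLp.inner_apply] at h1
    rw [Finset.sum_congr rfl (fun a _ => by rw [hi' a 0, hj' a 0])] at h1
    simp at h1
    rcases h1 with h1 | h1
    · exact nz j hj' h1
    · exact nz i hi' h1
  unfold gap
  have hs := Multiset.pairwise_sort QR.charpoly.roots (· ≥ ·)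
  rw [← Multiset.mem_sort (r := (· ≥ ·))] at h4
  rw [← Multiset.sort_eq QR.charpoly.roots (· ≥ ·), Multiset.coe_countP] at hc
  generalize QR.charpoly.roots.sort (· ≥ ·) = l at *
  rcases l with _ | ⟨x, _ | ⟨y, t⟩⟩
  · simp at h4
  · simp at h4
    simp [← h4]
  · simp only [List.pairwise_cons, List.mem_cons] at hs h4
    have hx : 4 ≤ x := by
      rcases h4 with h4 | h4
      · exact h4.le
      · exact hs.1 _ h4
    have hy : y < 3 := by
      by_contra hy
      rw [List.countP_cons_of_pos (by simp; linarith), List.countP_cons_of_pos (by simp; linarith)] at hc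
      omega
    simp
    linarith

theorem result : ∃ Q, IsQuot 6 2 Q ∧ gap (adjM (pancake 6 2)) ≠ gap Q := by
  refine ⟨QR, fun a b u hu => ?_, (gapA.trans_lt gapQ).ne⟩
  have := congrArg (Int.cast : ℤ → ℝ) (hQ u a hu b)
  rw [QR, this, ← Set.ncard_coe_finset]
  simp

end Pool.Agent.Results.MP_ad1e8a_co.Counter
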